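import Mathlib
import Pool.Agent.H59.ProdFinRel

set_option autoImplicit false

/-!
# Malcev coherence of `F × H` with `F` virtually free and `H` virtually nilpotent

The universal group of a finitely generated subsemigroup `S` of `F × H` is finitely presented:
the kernel of the map to the universal group of the image of `S` in the virtually free group
`F × H/K` (`K` a nilpotent normal subgroup of finite index of `H`) is relatively hypercentral
(a relative form of Malcev's argument with nilpotent semigroup identities), hence Noetherian;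
and for virtually free groups the relations are cut into short ones along a tree.
-/

namespace Pool.Agent.Results.MP_62749c_al.ProductCoherent

open Pool.Agent.H59.Rels

/-- The element of the free group on `A` represented by a nonempty word `w ∈ A⁺`. -/
def toFree {A : Type*} (w : FreeSemigroup A) : FreeGroup A :=
  FreeSemigroup.lift FreeGroup.of w

/-- `Gp⟨A | ρ⟩`: the group with generators `A` and relations `u = v` for `(u, v) ∈ ρ`. -/
abbrev Gp {A : Type*} (ρ : Set (FreeSemigroup A × FreeSemigroup A)) : Type _ :=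
  PresentedGroup {g : FreeGroup A | ∃ p ∈ ρ, g = toFree p.1 * (toFree p.2)⁻¹}

/-- The element of `Gp⟨A | ρ⟩` represented by the word `w`. -/
def Gp.rep {A : Type*} (ρ : Set (FreeSemigroup A × FreeSemigroup A)) (w : FreeSemigroup A) :
    Gp ρ :=
  PresentedGroup.mk _ (toFree w)

/-- `(φ, ρ)` is a Malcev presentation of the semigroup `S`: the image of `φ : A → S` generates
`S`, and two words have the same value in `S` if and only if they represent the same element
of `Gp⟨A | ρ⟩`. -/
def IsMalcevPresentation {S : Type*} [Semigroup S] {A : Type*} (φ : A → S)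
    (ρ : Set (FreeSemigroup A × FreeSemigroup A)) : Prop :=
  Subsemigroup.closure (Set.range φ) = ⊤ ∧
    ∀ u v : FreeSemigroup A,
      FreeSemigroup.lift φ u = FreeSemigroup.lift φ v ↔ Gp.rep ρ u = Gp.rep ρ v

/-- `S` has a Malcev presentation with finite alphabet and finitely many relations. -/
def HasFiniteMalcevPresentation (S : Type*) [Semigroup S] : Prop :=
  ∃ (A : Type) (_ : Finite A) (φ : A → S) (ρ : Set (FreeSemigroup A × FreeSemigroup A)),
    ρ.Finite ∧ IsMalcevPresentation φ ρ

/-- A group is Malcev coherent if each of its finitely generated subsemigroups has a finite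
Malcev presentation. -/
def MalcevCoherent (G : Type*) [Group G] : Prop :=
  ∀ S : Subsemigroup G, (∃ X : Set G, X.Finite ∧ Subsemigroup.closure X = S) →
    HasFiniteMalcevPresentation S

/-- A group is virtually free if it has a free subgroup of finite index. -/
def VirtuallyFree (G : Type*) [Group G] : Prop :=
  ∃ K : Subgroup G, K.FiniteIndex ∧ IsFreeGroup K

lemma lift_eq_ev {A : Type*} {G : Type*} [Group G] (s : A → G) (w : FreeSemigroup A) :
    FreeSemigroup.lift s w = ev s (w.head :: w.tail) := by
  induction w using FreeSemigroup.recOnMul with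
  | ih1 x =>
    rw [FreeSemigroup.lift_of]
    simp [FreeSemigroup.of, ev]
  | ih2 x y _ ih =>
    rw [map_mul, ih, FreeSemigroup.head_mul, FreeSemigroup.tail_mul, FreeSemigroup.lift_of]
    simp [FreeSemigroup.of, ev]

lemma toFree_eq_fw {A : Type*} (w : FreeSemigroup A) : toFree w = fw (w.head :: w.tail) :=
  lift_eq_ev FreeGroup.of w

lemma lowerCentralSeries_mono {H : Type*} [Group H] {K N : Subgroup H} (h : K ≤ N) :
    ∀ n, K.lowerCentralSeries n ≤ N.lowerCentralSeries n
  | 0 => h
  | n + 1 => by
    rw [Subgroup.lowerCentralSeries_succ, Subgroup.lowerCentralSeries_succ]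
    exact Subgroup.commutator_mono (lowerCentralSeries_mono h n) h

/-- **Q1 and Q2, in full generality.**  If `F` is virtually free and `H` is virtually nilpotent,
then `F × H` is Malcev coherent. -/
theorem result (F H : Type*) [Group F] [Group H] (hF : VirtuallyFree F)
    (hH : Group.IsVirtuallyNilpotent H) : MalcevCoherent (F × H) := by
  classical
  obtain ⟨F₀, hF₀, hF₀free⟩ := hF
  obtain ⟨N, hN, hNfi⟩ := hH
  rw [Subgroup.isNilpotent_iff_lowerCentralSeries] at hN
  obtain ⟨c, hc⟩ := hN
  have hK : N.normalCore.lowerCentralSeries c = ⊥ := by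
    rw [eq_bot_iff, ← hc]
    exact lowerCentralSeries_mono N.normalCore_le c
  rintro S ⟨X, hX, rfl⟩
  obtain ⟨n, s, -, hs⟩ := hX.fin_param
  have hfin : FinRel s := Pool.Agent.H59.ProdFinRel.prod_finRel s F₀ N.normalCore c hK
  obtain ⟨ρ', hρ'f, hρ's, hρ'⟩ := hfin
  have hmem : ∀ i, s i ∈ Subsemigroup.closure X := fun i =>
    Subsemigroup.subset_closure (hs ▸ ⟨i, rfl⟩)
  let φ : Fin n → Subsemigroup.closure X := fun i => ⟨s i, hmem i⟩
  have hφ : ∀ w : FreeSemigroup (Fin n),
      ((FreeSemigroup.lift φ w : Subsemigroup.closure X) : F × H) = ev s (w.head :: w.tail) := by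
    intro w
    rw [← lift_eq_ev]
    induction w using FreeSemigroup.recOnMul with
    | ih1 x => rfl
    | ih2 x y _ ih =>
      rw [map_mul, map_mul, MulMemClass.coe_mul, ih]
      rfl
  -- choose pairs of words
  have hch : ∀ g ∈ ρ', ∃ u v : List (Fin n), ev s u = ev s v ∧ g = fw u * (fw v)⁻¹ :=
    fun g hg => hρ's hg
  choose! U V hUV hUV' using hch
  let ρ : Set (FreeSemigroup (Fin n) × FreeSemigroup (Fin n)) :=
    (fun p : Fin n × FreeGroup (Fin n) => (⟨p.1, U p.2⟩, ⟨p.1, V p.2⟩)) '' (Set.univ ×ˢ ρ')
  refine ⟨Fin n, inferInstance, φ, ρ, (Set.finite_univ.prod hρ'f).image _, ?_, ?_⟩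
  · -- generation
    have h1 : ∀ x (hx : x ∈ Subsemigroup.closure X),
        (⟨x, hx⟩ : Subsemigroup.closure X) ∈ Subsemigroup.closure (Set.range φ) := by
      intro x hx
      induction hx using Subsemigroup.closure_induction with
      | mem x hx =>
        obtain ⟨i, rfl⟩ : x ∈ Set.range s := by rw [hs]; exact hx
        exact Subsemigroup.subset_closure ⟨i, rfl⟩
      | mul x y hx hy ihx ihy => exact mul_mem ihx ihy
    rw [eq_top_iff]
    rintro ⟨x, hx⟩ -
    exact h1 x hx
  · intro u v
    have hiff : (FreeSemigroup.lift φ u = FreeSemigroup.lift φ v) ↔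
        ev s (u.head :: u.tail) = ev s (v.head :: v.tail) := by
      rw [← hφ, ← hφ]
      exact Subtype.ext_iff
    rw [hiff]
    have hiff2 : (Gp.rep ρ u = Gp.rep ρ v) ↔
        (fw (u.head :: u.tail) * (fw (v.head :: v.tail))⁻¹) ∈ Subgroup.normalClosure
          {g : FreeGroup (Fin n) | ∃ p ∈ ρ, g = toFree p.1 * (toFree p.2)⁻¹} := by
      unfold Gp.rep
      rw [← mul_inv_eq_one, ← map_inv, ← map_mul, toFree_eq_fw, toFree_eq_fw]
      exact QuotientGroup.eq_one_iff _
    rw [hiff2]
    constructor
    · intro huv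
      have h1 := hρ' (mem_rels s _ _ huv)
      have h2 : ρ' ⊆ (Subgroup.normalClosure
          {g : FreeGroup (Fin n) | ∃ p ∈ ρ, g = toFree p.1 * (toFree p.2)⁻¹} :
          Set (FreeGroup (Fin n))) := by
        intro g hg
        have h3 : toFree (⟨u.head, U g⟩ : FreeSemigroup (Fin n)) *
            (toFree (⟨u.head, V g⟩ : FreeSemigroup (Fin n)))⁻¹ ∈ Subgroup.normalClosure
            {g : FreeGroup (Fin n) | ∃ p ∈ ρ, g = toFree p.1 * (toFree p.2)⁻¹} := by
          apply Subgroup.subset_normalClosure
          exact ⟨(⟨u.head, U g⟩, ⟨u.head, V g⟩), ⟨(u.head, g), ⟨Set.mem_univ _, hg⟩, rfl⟩, rfl⟩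
        have h4 := Subgroup.normalClosure_normal.conj_mem _ h3 (FreeGroup.of u.head)⁻¹
        rw [toFree_eq_fw, toFree_eq_fw] at h4
        simp only [fw_cons] at h4
        have h5 : (FreeGroup.of u.head)⁻¹ * (FreeGroup.of u.head * fw (U g) *
            (FreeGroup.of u.head * fw (V g))⁻¹) * (FreeGroup.of u.head)⁻¹⁻¹ =
            fw (U g) * (fw (V g))⁻¹ := by group
        rw [h5, ← hUV' g hg] at h4
        exact h4
      exact Subgroup.normalClosure_le_normal h2 h1
    · intro huv
      have h1 : Subgroup.normalClosure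
          {g : FreeGroup (Fin n) | ∃ p ∈ ρ, g = toFree p.1 * (toFree p.2)⁻¹} ≤
          (FreeGroup.lift s).ker := by
        apply Subgroup.normalClosure_le_normal
        rintro _ ⟨_, ⟨⟨a, g⟩, ⟨-, hg⟩, rfl⟩, rfl⟩
        rw [SetLike.mem_coe, MonoidHom.mem_ker, map_mul, map_inv, mul_inv_eq_one,
          toFree_eq_fw, toFree_eq_fw, lift_fw, lift_fw]
        simp only [ev_cons]
        rw [hUV g hg]
      have h2 := h1 huv
      rw [MonoidHom.mem_ker, map_mul, map_inv, mul_inv_eq_one, lift_fw, lift_fw] at h2
      exact h2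

end Pool.Agent.Results.MP_62749c_al.ProductCoherent
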